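import Pool.Agent.H25.IStar

set_option autoImplicit false
open Set Filter Topology

namespace Pool.Agent.Results.MP_8013b9_lc.No

theorem result : ∃ H : AddSubgroup UnitAddCircle, ∀ (I : Set (Set ℕ)) (a : ℕ → ℤ),
    (∀ S ∈ I, ∀ T ⊆ S, T ∈ I) → (∀ S ∈ I, ∀ T ∈ I, S ∪ T ∈ I) →
    (∀ S : Set ℕ, S.Finite → S ∈ I) → univ ∉ I →
      (H : Set UnitAddCircle) ≠
        {x | ∃ S ∈ I, Tendsto (fun n => a n • x) (atTop ⊓ 𝓟 Sᶜ) (𝓝 0)} := by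
  obtain ⟨H, h1, h2⟩ := Pool.Agent.H25.IStar.main
  refine ⟨H.map (QuotientAddGroup.mk' _), fun I a _ hI _ _ e => h2 I a hI fun t =>
    Iff.trans ?_ (Set.ext_iff.1 e t)⟩
  refine ⟨fun h => ⟨t, h, rfl⟩, fun ⟨u, hu, e⟩ => ?_⟩
  obtain ⟨n, hn⟩ := AddSubgroup.mem_zmultiples_iff.1 (QuotientAddGroup.eq.1 e)
  simpa [hn] using add_mem hu (zsmul_mem h1 n)

end Pool.Agent.Results.MP_8013b9_lc.No
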